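import Mathlib

set_option autoImplicit false

namespace Pool.Agent.Results.MP_768819_an.CircuitAtLeastFour

open MeasureTheory

/-- the two-valued step function of the cut at `s` -/
private noncomputable def stp (s u : ℝ) : ℝ := if u ≤ s then 1 else -1

private lemma stp_mul (s t u : ℝ) :
    stp s u * stp t u = 1 - 2 * (Set.indicator (Set.uIoc s t) (fun _ => (1 : ℝ)) u) := by
  unfold stp
  by_cases h1 : u ≤ s <;> by_cases h2 : u ≤ t
  · have : u ∉ Set.uIoc s t := by
      rw [Set.mem_uIoc]; rintro (⟨a, b⟩ | ⟨a, b⟩) <;> linarith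
    simp [h1, h2, this]
  · have : u ∈ Set.uIoc s t := by
      rw [Set.mem_uIoc]; right; constructor <;> linarith [not_le.mp h2]
    simp [h1, h2, this]; norm_num
  · have : u ∈ Set.uIoc s t := by
      rw [Set.mem_uIoc]; left; constructor <;> linarith [not_le.mp h1]
    simp [h1, h2, this]; norm_num
  · have : u ∉ Set.uIoc s t := by
      rw [Set.mem_uIoc]; rintro (⟨a, b⟩ | ⟨a, b⟩) <;> linarith [not_le.mp h1, not_le.mp h2]
    simp [h1, h2, this]

private lemma stp_int {M s t : ℝ} (hM : 0 ≤ M) (hs : s ∈ Set.Icc 0 M) (ht : t ∈ Set.Icc 0 M) :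
    IntegrableOn (fun u => stp s u * stp t u) (Set.Ioc 0 M) ∧
      ∫ u in Set.Ioc 0 M, stp s u * stp t u = M - 2 * |s - t| := by
  have hsub : Set.uIoc s t ⊆ Set.Ioc 0 M := by
    intro u hu
    rw [Set.mem_uIoc] at hu
    rcases hu with ⟨a, b⟩ | ⟨a, b⟩
    · exact ⟨lt_of_le_of_lt hs.1 a, b.trans ht.2⟩
    · exact ⟨lt_of_le_of_lt ht.1 a, b.trans hs.2⟩
  have h1 : IntegrableOn (fun _ : ℝ => (1 : ℝ)) (Set.Ioc 0 M) := by
    simp [integrableOn_const_iff]
  have h2 : IntegrableOn (Set.indicator (Set.uIoc s t) (fun _ => (1 : ℝ))) (Set.Ioc 0 M) :=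
    h1.indicator measurableSet_uIoc
  have hfun : (fun u => stp s u * stp t u) =
      fun u => 1 - 2 * (Set.indicator (Set.uIoc s t) (fun _ => (1 : ℝ)) u) := by
    funext u; exact stp_mul s t u
  rw [hfun]
  refine ⟨h1.sub (h2.const_mul 2), ?_⟩
  rw [integral_sub h1 (h2.const_mul 2), integral_const_mul,
    setIntegral_indicator measurableSet_uIoc, Set.inter_eq_self_of_subset_right hsub]
  simp [Measure.real, hM, abs_sub_comm t s]

private lemma psd {ι : Type} [Fintype ι] {M : ℝ} (hM : 0 ≤ M) (a s : ι → ℝ)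
    (hs : ∀ i, s i ∈ Set.Icc 0 M) :
    0 ≤ ∑ i, ∑ j, a i * a j * (M - 2 * |s i - s j|) := by
  have h1 : ∑ i, ∑ j, a i * a j * (M - 2 * |s i - s j|) =
      ∫ u in Set.Ioc 0 M, ∑ i, ∑ j, a i * a j * (stp (s i) u * stp (s j) u) := by
    rw [integral_finsetSum]
    · refine Finset.sum_congr rfl fun i _ => ?_
      rw [integral_finsetSum]
      · refine Finset.sum_congr rfl fun j _ => ?_
        rw [integral_const_mul, (stp_int hM (hs i) (hs j)).2]
      · intro j _
        exact (stp_int hM (hs i) (hs j)).1.const_mul _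
    · intro i _
      exact integrable_finsetSum _ fun j _ => (stp_int hM (hs i) (hs j)).1.const_mul _
  rw [h1]
  refine integral_nonneg fun u => ?_
  have h2 : ∑ i, ∑ j, a i * a j * (stp (s i) u * stp (s j) u) =
      (∑ i, a i * stp (s i) u) * (∑ j, a j * stp (s j) u) := by
    rw [Finset.sum_mul_sum]
    refine Finset.sum_congr rfl fun i _ => Finset.sum_congr rfl fun j _ => by ring
  show 0 ≤ ∑ i, ∑ j, a i * a j * (stp (s i) u * stp (s j) u)
  rw [h2]
  exact mul_self_nonneg _

/-- Weighted sums of circular distances: if `t i ∈ [0, 2M]` and `D i j` is at most the circular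
distance on the circle of length `2M`, then `∑ λ_i λ_j D_ij ≤ M / 2`. -/
private lemma circ {ι : Type} [Fintype ι] {M : ℝ} (hM : 0 ≤ M) (w t : ι → ℝ) (hw : ∀ i, 0 ≤ w i)
    (hw1 : ∑ i, w i = 1) (ht : ∀ i, t i ∈ Set.Icc 0 (2 * M)) (D : ι → ι → ℝ)
    (hD : ∀ i j, D i j ≤ |t i - t j|) (hD' : ∀ i j, D i j ≤ 2 * M - |t i - t j|) :
    ∑ i, ∑ j, w i * w j * D i j ≤ M / 2 := by
  classical
  let e : ι → ℝ := fun i => if t i ≤ M then 1 else -1
  let s : ι → ℝ := fun i => if t i ≤ M then t i else t i - M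
  have hs : ∀ i, s i ∈ Set.Icc 0 M := by
    intro i
    by_cases h : t i ≤ M
    · simp only [s, h, if_true]; exact ⟨(ht i).1, h⟩
    · simp only [s, h, if_false]
      exact ⟨by linarith [not_le.mp h], by linarith [(ht i).2]⟩
  have key := psd hM (fun i => w i * e i) s hs
  have hb : ∀ i j, w i * w j * D i j ≤
      w i * w j * (M / 2) - (1 / 2) * ((w i * e i) * (w j * e j) * (M - 2 * |s i - s j|)) := by
    intro i j
    have h2 : D i j ≤ M / 2 - (1 / 2) * (e i * e j * (M - 2 * |s i - s j|)) := by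
      have a1 := hD i j
      have a2 := hD' i j
      by_cases hi : t i ≤ M <;> by_cases hj : t j ≤ M
      · simp only [e, s, hi, hj, if_true]
        linarith
      · simp only [e, s, hi, hj, if_true, if_false]
        have hlt := not_le.mp hj
        have h3 : |t i - t j| = t j - t i := by
          rw [abs_of_nonpos (by linarith)]; ring
        rw [h3] at a1 a2
        have : |t i - (t j - M)| ≤ M - D i j := by
          rw [abs_le]; constructor <;> linarith
        linarith
      · simp only [e, s, hi, hj, if_true, if_false]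
        have hlt := not_le.mp hi
        have h3 : |t i - t j| = t i - t j := by
          rw [abs_of_nonneg (by linarith)]
        rw [h3] at a1 a2
        have : |t i - M - t j| ≤ M - D i j := by
          rw [abs_le]; constructor <;> linarith
        linarith
      · simp only [e, s, hi, hj, if_false]
        have : t i - M - (t j - M) = t i - t j := by ring
        rw [this]
        linarith
    have h4 := mul_le_mul_of_nonneg_left h2 (mul_nonneg (hw i) (hw j))
    calc w i * w j * D i j ≤ _ := h4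
      _ = _ := by ring
  calc ∑ i, ∑ j, w i * w j * D i j
      ≤ ∑ i, ∑ j, (w i * w j * (M / 2) -
        (1 / 2) * ((w i * e i) * (w j * e j) * (M - 2 * |s i - s j|))) :=
        Finset.sum_le_sum fun i _ => Finset.sum_le_sum fun j _ => hb i j
    _ = (∑ i, w i) * (∑ j, w j) * (M / 2) -
        (1 / 2) * ∑ i, ∑ j, ((w i * e i) * (w j * e j) * (M - 2 * |s i - s j|)) := by
        simp only [Finset.sum_sub_distrib]
        congr 1
        · rw [Finset.sum_mul_sum, Finset.sum_mul]
          refine Finset.sum_congr rfl fun i _ => ?_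
          rw [Finset.sum_mul]
        · rw [Finset.mul_sum]
          refine Finset.sum_congr rfl fun i _ => ?_
          rw [Finset.mul_sum]
    _ ≤ M / 2 := by rw [hw1]; linarith

/-- Every closed polygon through finitely many unit vectors of a real normed space whose convex
hull contains the origin has length at least `4`. -/
theorem result (X : Type*) [NormedAddCommGroup X] [NormedSpace ℝ X] (r : ℕ) (hr : 2 ≤ r)
    (p : Fin r → X) (hp : ∀ i, ‖p i‖ = 1) (h0 : (0 : X) ∈ convexHull ℝ (Set.range p))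
    (σ : Equiv.Perm (Fin r)) :
    4 ≤ ∑ k : Fin r, ‖p (σ (finRotate r k)) - p (σ k)‖ := by
  classical
  have hr0 : 0 < r := by omega
  -- the points in the order of the circuit, indexed by the natural numbers
  let q : ℕ → X := fun n => p (σ ⟨n % r, Nat.mod_lt _ hr0⟩)
  let T : ℕ → ℝ := fun n => ∑ m ∈ Finset.range n, dist (q m) (q (m + 1))
  have hL : ∑ k : Fin r, ‖p (σ (finRotate r k)) - p (σ k)‖ = T r := by
    show _ = ∑ m ∈ Finset.range r, dist (q m) (q (m + 1))
    rw [Finset.sum_range]
    refine Finset.sum_congr rfl fun k _ => ?_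
    rw [dist_comm, dist_eq_norm]
    have h1 : (⟨(k : ℕ) % r, Nat.mod_lt _ hr0⟩ : Fin r) = k :=
      Fin.ext (Nat.mod_eq_of_lt k.2)
    have h2 : (⟨((k : ℕ) + 1) % r, Nat.mod_lt _ hr0⟩ : Fin r) = finRotate r k := by
      obtain ⟨n, rfl⟩ : ∃ n, r = n + 1 := ⟨r - 1, by omega⟩
      apply Fin.ext
      rw [coe_finRotate]
      by_cases hk : k = Fin.last n
      · subst hk; simp
      · have : (k : ℕ) < n := by
          have := k.2
          have h5 : (k : ℕ) ≠ n := fun h => hk (Fin.ext (by simpa using h))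
          omega
        simp only [hk, if_false]
        exact Nat.mod_eq_of_lt (by omega)
    show ‖p (σ (finRotate r k)) - p (σ k)‖ =
      ‖p (σ ⟨((k : ℕ) + 1) % r, Nat.mod_lt _ hr0⟩) - p (σ ⟨(k : ℕ) % r, Nat.mod_lt _ hr0⟩)‖
    rw [h1, h2]
  have hTmono : Monotone T := by
    intro a b hab
    exact Finset.sum_le_sum_of_subset_of_nonneg (Finset.range_mono hab)
      fun _ _ _ => dist_nonneg
  have hdist : ∀ a b : ℕ, a ≤ b → dist (q a) (q b) ≤ T b - T a := by
    intro a b hab
    have h1 := dist_le_Ico_sum_dist q hab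
    rw [Finset.sum_Ico_eq_sub _ hab] at h1
    exact h1
  have hqr : q r = q 0 := by
    show p (σ ⟨r % r, _⟩) = p (σ ⟨0 % r, _⟩)
    congr 2
    apply Fin.ext
    simp
  have hT0 : T 0 = 0 := by simp [T]
  have hdist' : ∀ a b : ℕ, a ≤ b → b ≤ r → dist (q a) (q b) ≤ T r - (T b - T a) := by
    intro a b hab hbr
    have h1 := hdist b r hbr
    have h2 := hdist 0 a (Nat.zero_le a)
    rw [hqr] at h1
    rw [hT0] at h2
    have h3 := dist_triangle (q b) (q 0) (q a)
    rw [dist_comm (q a) (q b)]
    linarith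
  set M : ℝ := T r / 2 with hMdef
  have hTr : 0 ≤ T r := Finset.sum_nonneg fun _ _ => dist_nonneg
  have hM : 0 ≤ M := by positivity
  -- barycentric coordinates
  have h0' : (0 : X) ∈ convexHull ℝ (Set.range fun i : Fin r => p (σ i)) := by
    have : (Set.range fun i : Fin r => p (σ i)) = Set.range p := by
      ext x; constructor
      · rintro ⟨i, rfl⟩; exact ⟨σ i, rfl⟩
      · rintro ⟨i, rfl⟩; exact ⟨σ.symm i, by simp⟩
    rw [this]; exact h0
  rw [convexHull_range_eq_exists_affineCombination] at h0'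
  obtain ⟨s, w, hw0, hw1, hw2⟩ := h0'
  let v : Fin r → ℝ := fun i => if i ∈ s then w i else 0
  have hv0 : ∀ i, 0 ≤ v i := by
    intro i
    by_cases hi : i ∈ s
    · simp only [v, hi, if_true]; exact hw0 i hi
    · simp [v, hi]
  have hv1 : ∑ i, v i = 1 := by
    rw [← hw1]; simp [v, Finset.sum_ite_mem]
  have hv2 : ∑ i, v i • p (σ i) = 0 := by
    rw [Finset.affineCombination_eq_linear_combination _ _ _ hw1] at hw2
    rw [← hw2]
    simp [v, ite_smul, Finset.sum_ite_mem]
  -- the lower bound for the weighted sum of distances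
  have hlow : ∀ i : Fin r, 1 ≤ ∑ j, v j * ‖p (σ i) - p (σ j)‖ := by
    intro i
    have h1 : p (σ i) = ∑ j, v j • (p (σ i) - p (σ j)) := by
      simp only [smul_sub, Finset.sum_sub_distrib, hv2, sub_zero, ← Finset.sum_smul, hv1, one_smul]
    calc (1 : ℝ) = ‖p (σ i)‖ := (hp _).symm
      _ = ‖∑ j, v j • (p (σ i) - p (σ j))‖ := by rw [← h1]
      _ ≤ ∑ j, ‖v j • (p (σ i) - p (σ j))‖ := norm_sum_le _ _
      _ = ∑ j, v j * ‖p (σ i) - p (σ j)‖ := by
        refine Finset.sum_congr rfl fun j _ => ?_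
        rw [norm_smul, Real.norm_of_nonneg (hv0 j)]
  have hlow2 : 1 ≤ ∑ i, ∑ j, v i * v j * ‖p (σ i) - p (σ j)‖ := by
    calc (1 : ℝ) = ∑ i, v i * 1 := by simp [hv1]
      _ ≤ ∑ i, v i * ∑ j, v j * ‖p (σ i) - p (σ j)‖ :=
        Finset.sum_le_sum fun i _ => mul_le_mul_of_nonneg_left (hlow i) (hv0 i)
      _ = _ := by
        refine Finset.sum_congr rfl fun i _ => ?_
        rw [Finset.mul_sum]
        exact Finset.sum_congr rfl fun j _ => by ring
  have hqi : ∀ i : Fin r, q (i : ℕ) = p (σ i) := by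
    intro i
    show p (σ ⟨(i : ℕ) % r, _⟩) = p (σ i)
    congr 2
    exact Fin.ext (Nat.mod_eq_of_lt i.2)
  have hup := circ hM v (fun i => T (i : ℕ)) hv0 hv1
    (fun i => ⟨Finset.sum_nonneg fun _ _ => dist_nonneg, by
      have : T (i : ℕ) ≤ T r := hTmono i.2.le
      simp only [hMdef]; linarith⟩)
    (fun i j => ‖p (σ i) - p (σ j)‖)
    (by
      intro i j
      rw [← hqi i, ← hqi j, ← dist_eq_norm]
      rcases le_total (i : ℕ) (j : ℕ) with hij | hij
      · have := hdist _ _ hij
        rw [abs_sub_comm]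
        exact this.trans (le_abs_self _)
      · have := hdist _ _ hij
        rw [dist_comm]
        exact this.trans (le_abs_self _))
    (by
      intro i j
      rw [← hqi i, ← hqi j, ← dist_eq_norm]
      rcases le_total (i : ℕ) (j : ℕ) with hij | hij
      · have := hdist' _ _ hij j.2.le
        have h5 := hTmono hij
        rw [abs_sub_comm, abs_of_nonneg (by linarith : (0 : ℝ) ≤ T (j : ℕ) - T (i : ℕ))]
        simp only [hMdef]; linarith
      · have := hdist' _ _ hij i.2.le
        have h5 := hTmono hij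
        rw [dist_comm, abs_of_nonneg (by linarith : (0 : ℝ) ≤ T (i : ℕ) - T (j : ℕ))]
        simp only [hMdef]; linarith)
  rw [hL]
  simp only [hMdef] at hup
  linarith

end Pool.Agent.Results.MP_768819_an.CircuitAtLeastFour
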